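import Pool.Agent.H290Z.AR.Main

set_option autoImplicit false
open MeasureTheory

namespace Pool.Agent.Results.MP_646863_pr.ACounterexample

/-- The position `X_n = ζ_1 ⋯ ζ_n` of the walk with increments `ζ_(i+1) = ω i`. -/
def walk {G : Type} [Group G] (ω : ℕ → G) (n : ℕ) : G := ((List.range n).map ω).prod

/-- `S_n`: the subsemigroup generated by `X_n, X_(n+1), …`. -/
def tailSemigroup {G : Type} [Group G] (ω : ℕ → G) (n : ℕ) : Subsemigroup G :=
  Subsemigroup.closure {g | ∃ k, n ≤ k ∧ walk ω k = g}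

/-- `G` is Liouville with respect to `S`: every bounded function that is harmonic for the simple
random walk on the Cayley graph of `(G, S)` is constant. -/
def Liouville {G : Type} [Group G] (S : Finset G) : Prop :=
  ∀ f : G → ℝ, (∃ B, ∀ g, |f g| ≤ B) →
    (∀ g, f g = (1 / (S.card : ℝ)) * ∑ s ∈ S, f (g * s)) → ∀ g h, f g = f h

/-- **A Liouville group that is not algebraically recurrent.** -/
theorem result :
    ∃ (G : Type) (_ : Group G) (_ : Countable G) (_ : MeasurableSpace G)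
      (_ : DiscreteMeasurableSpace G) (S : Finset G),
      (1 : G) ∉ S ∧ (∀ s ∈ S, s⁻¹ ∈ S) ∧ Subgroup.closure (S : Set G) = ⊤ ∧ Liouville S ∧
      ∃ μ : PMF G, (∀ g, μ g⁻¹ = μ g) ∧ Subgroup.closure μ.support = ⊤ ∧
        ∃ n : ℕ, 1 ≤ n ∧ MeasurableSet {ω : ℕ → G | tailSemigroup ω n ≠ ⊤} ∧
          0 < Measure.infinitePi (fun _ : ℕ => μ.toMeasure) {ω | tailSemigroup ω n ≠ ⊤} := by
  let _ : MeasurableSpace H290Z.AR.ZZ := ⊤
  have _ : DiscreteMeasurableSpace H290Z.AR.ZZ := ⟨fun _ => trivial⟩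
  refine ⟨H290Z.AR.ZZ, inferInstance, inferInstance, inferInstance, inferInstance, H290Z.AR.gens,
    H290Z.AR.one_notMem_gens, H290Z.AR.gens_symm, H290Z.AR.gens_closure, H290Z.AR.gens_liouville,
    H290Z.AR.mu, H290Z.AR.mu_symm, H290Z.AR.mu_closure, ?_⟩
  have h := H290Z.AR.mu_not_AR
  push Not at h
  obtain ⟨n, hn, h⟩ := h
  refine ⟨n, hn, H290Z.AR.measurable_event n, pos_iff_ne_zero.2 ?_⟩
  exact frequently_ae_iff.1 h

end Pool.Agent.Results.MP_646863_pr.ACounterexample
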